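import Pool.Agent.Lib.MP_1c8e06_ag.AJ.Defs

set_option autoImplicit false

open Polynomial
open scoped Classical

namespace Pool.Agent.MP_1c8e06_ag.AJ

noncomputable section

/-!
# Task A1: trace, fixed elements and cocycles for the algebra `Al S`

Everything is over an arbitrary commutative ring `B`.  API of `Al`: `AJ/Defs.lean`
(`eq_sum`, `e_mul_e`, `one_eq_sum`, `act_e`, `act_cst`, `act_mul_apply`, `cst_mul`, `ext`).
Proofs.
* `cst_injective`: `cst b * e 1` has coordinate `b` at `1` (`cst_mul`).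
* `tr_ee`: `∑ x, act x (e i * e j) = cst (T i j)`: coordinates and `S.tr` (`act_apply`, `e_mul_e`).
* `tr_e`: `t m := ∑ i, ν i * T i m`; `e m = ∑ i, cst (ν i) * e i * e m` (`one_eq_sum`) and `tr_ee`.
* `dual_e`: `∑ l, ∑ m, cst (T' l m) * e l * act x (e m) = if x = 1 then 1 else 0`: coordinates, `S.dual`.
* `exists_theta`: summing `dual_e` over `x`: `∑ l, cst (∑ m, T' l m * t m) * e l = 1`.  Multiply by
  `e 1` and take the coordinate at `1`: `∑ l, μ 1 l 1 * ∑ m, T' l m * t m = 1` (`e_mul_e`).  So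
  `θ := ∑ l, ∑ m, cst (μ 1 l 1 * T' l m) * e m` has trace `1`.
* `tr_mem`: linearity and `tr_e`.
* `fixed`: `a = a * ∑ x, act x θ = ∑ x, act x (a θ)` and `tr_mem`.
* `H1`: `y := - ∑ v, c v * act v θ`:
  `act u y = - ∑ v, (c (u v) - c u) * act (u v) θ = y + c u` (reindex `v ↦ u v`).
-/

variable {B : Type} [CommRing B] {P : Type} [Group P] [Fintype P] (S : SC B P)

private lemma A1_ee (i j l : P) : (Al.e S i * Al.e S j : Al S) l = S.μ i j l := by
  rw [Al.mul_apply]
  simp [Al.e]

private lemma A1_trc (b : B) (a : Al S) :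
    ∑ x, Al.act S x (Al.cst S b * a) = Al.cst S b * ∑ x, Al.act S x a := by
  rw [Finset.mul_sum]
  refine Finset.sum_congr rfl fun x _ => ?_
  rw [map_mul, Al.act_cst]

theorem cst_injective : Function.Injective (Al.cst S) := by
  intro a b h
  have h1 := congrArg (fun z => (z * Al.e S 1 : Al S) 1) h
  simpa [Al.cst_mul, Al.e] using h1

theorem tr_ee (i j : P) : ∑ x, Al.act S x (Al.e S i * Al.e S j) = Al.cst S (S.T i j) := by
  refine Al.ext fun l => ?_
  rw [Al.sum_apply, Al.cst_apply, ← S.tr i j l]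
  refine Finset.sum_congr rfl fun x _ => ?_
  rw [Al.act_apply]
  refine Finset.sum_congr rfl fun m _ => ?_
  rw [A1_ee]

theorem tr_e (m : P) : ∑ x, Al.act S x (Al.e S m) = Al.cst S (∑ i, S.ν i * S.T i m) := by
  have h0 : Al.e S m = ∑ i, Al.cst S (S.ν i) * (Al.e S i * Al.e S m) := by
    calc Al.e S m = 1 * Al.e S m := (one_mul _).symm
      _ = (∑ i, Al.cst S (S.ν i) * Al.e S i) * Al.e S m := by rw [← Al.one_eq_sum]
      _ = _ := by
        rw [Finset.sum_mul]
        refine Finset.sum_congr rfl fun i _ => ?_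
        rw [mul_assoc]
  calc ∑ x, Al.act S x (Al.e S m)
      = ∑ x, Al.act S x (∑ i, Al.cst S (S.ν i) * (Al.e S i * Al.e S m)) := by rw [← h0]
    _ = ∑ i, ∑ x, Al.act S x (Al.cst S (S.ν i) * (Al.e S i * Al.e S m)) := by
        rw [Finset.sum_comm]
        refine Finset.sum_congr rfl fun x _ => ?_
        rw [map_sum]
    _ = ∑ i, Al.cst S (S.ν i) * Al.cst S (S.T i m) := by
        refine Finset.sum_congr rfl fun i _ => ?_
        rw [A1_trc, tr_ee]
    _ = _ := by
        rw [map_sum]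
        refine Finset.sum_congr rfl fun i _ => ?_
        rw [map_mul]

theorem dual_e (x : P) : ∑ l, ∑ m, Al.cst S (S.T' l m) * Al.e S l * Al.act S x (Al.e S m) =
    if x = 1 then 1 else 0 := by
  refine Al.ext fun k => ?_
  have h1 : ((if x = 1 then 1 else 0 : Al S)) k = if x = 1 then S.ν k else 0 := by
    split_ifs
    · rfl
    · rfl
  rw [h1, ← S.dual x k, Al.sum_apply]
  refine Finset.sum_congr rfl fun l _ => ?_
  rw [Al.sum_apply]
  refine Finset.sum_congr rfl fun m _ => ?_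
  have h2 : Al.cst S (S.T' l m) * Al.e S l * Al.act S x (Al.e S m) =
      ∑ n, Al.cst S (S.T' l m * S.α x m n) * (Al.e S l * Al.e S n) := by
    rw [Al.act_e, Finset.mul_sum]
    refine Finset.sum_congr rfl fun n _ => ?_
    rw [map_mul]
    ring
  rw [h2, Al.sum_apply]
  refine Finset.sum_congr rfl fun n _ => ?_
  rw [Al.cst_mul, A1_ee]

theorem tr_mem (a : Al S) : ∃ b, ∑ x, Al.act S x a = Al.cst S b := by
  refine ⟨∑ l, a l * ∑ i, S.ν i * S.T i l, ?_⟩
  calc ∑ x, Al.act S x a
      = ∑ x, Al.act S x (∑ l, Al.cst S (a l) * Al.e S l) := by rw [← Al.eq_sum S a]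
    _ = ∑ l, ∑ x, Al.act S x (Al.cst S (a l) * Al.e S l) := by
        rw [Finset.sum_comm]
        refine Finset.sum_congr rfl fun x _ => ?_
        rw [map_sum]
    _ = ∑ l, Al.cst S (a l) * Al.cst S (∑ i, S.ν i * S.T i l) := by
        refine Finset.sum_congr rfl fun i _ => ?_
        rw [A1_trc, tr_e]
    _ = _ := by
        rw [map_sum]
        refine Finset.sum_congr rfl fun i _ => ?_
        rw [map_mul]

/-- There is an element of trace one. -/
theorem exists_theta : ∃ θ : Al S, ∑ x, Al.act S x θ = 1 := by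
  obtain ⟨t, ht⟩ : ∃ t : P → B, ∀ m, ∑ x, Al.act S x (Al.e S m) = Al.cst S (t m) :=
    ⟨_, tr_e S⟩
  have h1 : (1 : Al S) = ∑ l, ∑ m, Al.cst S (S.T' l m * t m) * Al.e S l := by
    calc (1 : Al S) = ∑ x : P, (if x = 1 then 1 else 0 : Al S) := by simp
      _ = ∑ x : P, ∑ l, ∑ m, Al.cst S (S.T' l m) * Al.e S l * Al.act S x (Al.e S m) := by
          refine Finset.sum_congr rfl fun x _ => ?_
          rw [dual_e]
      _ = ∑ l, ∑ m, ∑ x : P, Al.cst S (S.T' l m) * Al.e S l * Al.act S x (Al.e S m) := by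
          rw [Finset.sum_comm]
          refine Finset.sum_congr rfl fun l _ => ?_
          rw [Finset.sum_comm]
      _ = _ := by
          refine Finset.sum_congr rfl fun l _ => Finset.sum_congr rfl fun m _ => ?_
          rw [← Finset.mul_sum, ht, map_mul]
          ring
  have h2 : ∑ l, ∑ m, S.μ l 1 1 * S.T' l m * t m = 1 := by
    have h3 : (Al.e S 1 : Al S) 1 = ∑ l, ∑ m, S.μ l 1 1 * S.T' l m * t m := by
      calc (Al.e S 1 : Al S) 1 = (1 * Al.e S 1 : Al S) 1 := by rw [one_mul]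
        _ = ((∑ l, ∑ m, Al.cst S (S.T' l m * t m) * Al.e S l) * Al.e S 1 : Al S) 1 := by
            rw [← h1]
        _ = _ := by
            rw [Finset.sum_mul, Al.sum_apply]
            refine Finset.sum_congr rfl fun l _ => ?_
            rw [Finset.sum_mul, Al.sum_apply]
            refine Finset.sum_congr rfl fun m _ => ?_
            rw [mul_assoc, Al.cst_mul, A1_ee]
            ring
    rw [← h3]
    simp [Al.e]
  refine ⟨∑ l, ∑ m, Al.cst S (S.μ l 1 1 * S.T' l m) * Al.e S m, ?_⟩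
  calc ∑ x, Al.act S x (∑ l, ∑ m, Al.cst S (S.μ l 1 1 * S.T' l m) * Al.e S m)
      = ∑ x, ∑ l, ∑ m, Al.act S x (Al.cst S (S.μ l 1 1 * S.T' l m) * Al.e S m) := by
        refine Finset.sum_congr rfl fun x _ => ?_
        rw [map_sum]
        refine Finset.sum_congr rfl fun l _ => ?_
        rw [map_sum]
    _ = ∑ l, ∑ m, ∑ x, Al.act S x (Al.cst S (S.μ l 1 1 * S.T' l m) * Al.e S m) := by
        rw [Finset.sum_comm]
        refine Finset.sum_congr rfl fun l _ => ?_
        rw [Finset.sum_comm]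
    _ = Al.cst S (∑ l, ∑ m, S.μ l 1 1 * S.T' l m * t m) := by
        rw [map_sum]
        refine Finset.sum_congr rfl fun l _ => ?_
        rw [map_sum]
        refine Finset.sum_congr rfl fun m _ => ?_
        rw [A1_trc, ht, map_mul (Al.cst S) (S.μ l 1 1 * S.T' l m)]
    _ = 1 := by rw [h2, map_one]

theorem fixed (a : Al S) (h : ∀ u, Al.act S u a = a) : ∃ b, a = Al.cst S b := by
  obtain ⟨θ, hθ⟩ := exists_theta S
  obtain ⟨b, hb⟩ := tr_mem S (a * θ)
  refine ⟨b, ?_⟩
  rw [← hb]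
  calc a = a * ∑ x, Al.act S x θ := by rw [hθ, mul_one]
    _ = _ := by
      rw [Finset.mul_sum]
      refine Finset.sum_congr rfl fun x _ => ?_
      rw [map_mul, h]

theorem H1 (c : P → Al S) (hc : ∀ u v, c (u * v) = c u + Al.act S u (c v)) :
    ∃ y, ∀ u, Al.act S u y = y + c u := by
  obtain ⟨θ, hθ⟩ := exists_theta S
  refine ⟨-∑ v, c v * Al.act S v θ, fun u => ?_⟩
  have h1 : Al.act S u (∑ v, c v * Al.act S v θ) =
      ∑ v, (c (u * v) - c u) * Al.act S (u * v) θ := by
    rw [map_sum]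
    refine Finset.sum_congr rfl fun v _ => ?_
    rw [map_mul, hc, Al.act_mul_apply, add_sub_cancel_left]
  have h2 : ∑ v, (c (u * v) - c u) * Al.act S (u * v) θ = ∑ v, (c v - c u) * Al.act S v θ :=
    Equiv.sum_comp (Equiv.mulLeft u) (fun v => (c v - c u) * Al.act S v θ)
  have h3 : ∑ v, (c v - c u) * Al.act S v θ = (∑ v, c v * Al.act S v θ) - c u := by
    have h4 : c u = ∑ v, c u * Al.act S v θ := by
      rw [← Finset.mul_sum, hθ, mul_one]
    conv_rhs => rw [h4]
    rw [← Finset.sum_sub_distrib]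
    refine Finset.sum_congr rfl fun v _ => ?_
    rw [sub_mul]
  rw [map_neg, h1, h2, h3]
  ring

end

end Pool.Agent.MP_1c8e06_ag.AJ
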