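import Pool.Agent.Lib.MP_1c8e06_ag.Mg.G047

set_option autoImplicit false

open Polynomial
open scoped Classical

namespace Pool.Agent.MP_1c8e06_ag.AJ

noncomputable section

/-!
# Task B2: reordering `κ((s))((t))_bounded → κ((t))((s))`

Proof.  For `a ∈ BL κ` with bound `N` let `sw a` be the Laurent series in `s` whose coefficient at `m`
is the Laurent series in `t` with coefficients `n ↦ ((a.coeff n)).coeff m` (support bounded below by the
order of `a`); it vanishes for `m < -N`.  Additive and `1 ↦ 1`: clear.  Multiplicative: both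
coefficients of `t^n s^m` are `∑_{n1+n2=n} ∑_{m1+m2=m} a_{n1,m1} b_{n2,m2}`, a finite double sum (all
indices are bounded below).  A useful auxiliary lemma: if Laurent series `a`, `b` vanish below `A`, `B`
then `(a * b).coeff m = ∑ i ∈ Finset.Icc A (m - B), a.coeff i * b.coeff (m - i)`.
(`AI/SW.lean` has the proof for `κ((s))[[t]]`: copy and adapt it.)
Second theorem: from the formula: injective (coefficients); `sw (iB f) = zinv f`: ring
homomorphisms in `f`, check `C c` and `X`.
-/

private theorem B2_coeff_mul {R : Type} [CommRing R] (a b : LaurentSeries R) (A B m : ℤ)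
    (ha : ∀ i < A, a.coeff i = 0) (hb : ∀ i < B, b.coeff i = 0) :
    (a * b).coeff m = ∑ i ∈ Finset.Icc A (m - B), a.coeff i * b.coeff (m - i) := by
  rw [HahnSeries.coeff_mul]
  have h1 : ∑ ij ∈ Finset.antidiagonal a.isPWO_support b.isPWO_support m,
      a.coeff ij.1 * b.coeff ij.2 =
      ∑ i ∈ (Finset.antidiagonal a.isPWO_support b.isPWO_support m).image Prod.fst,
        a.coeff i * b.coeff (m - i) := by
    rw [Finset.sum_image]
    · refine Finset.sum_congr rfl fun ij hij => ?_
      rw [Finset.mem_antidiagonal] at hij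
      have h2 : ij.2 = m - ij.1 := by
        have := hij.2.2
        omega
      rw [h2]
    · intro x hx y hy hxy
      rw [Finset.mem_coe, Finset.mem_antidiagonal] at hx hy
      have h2 := hx.2.2
      have h3 := hy.2.2
      refine Prod.ext hxy ?_
      omega
  rw [h1]
  refine Finset.sum_subset ?_ ?_
  · intro i hi
    rw [Finset.mem_image] at hi
    obtain ⟨ij, hij, rfl⟩ := hi
    rw [Finset.mem_antidiagonal] at hij
    obtain ⟨h2, h3, h4⟩ := hij
    rw [Finset.mem_Icc]
    have h5 : A ≤ ij.1 := by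
      by_contra hc
      exact h2 (ha _ (by omega))
    have h6 : B ≤ ij.2 := by
      by_contra hc
      exact h3 (hb _ (by omega))
    omega
  · intro i _ hi
    by_contra hne
    apply hi
    rw [Finset.mem_image]
    refine ⟨(i, m - i), ?_, rfl⟩
    rw [Finset.mem_antidiagonal]
    refine ⟨left_ne_zero_of_mul hne, right_ne_zero_of_mul hne, ?_⟩
    show i + (m - i) = m
    omega

/-- the coefficient of `s^m`, a Laurent series in `t`. -/
private def B2_P {κ : Type} [Field κ] (a : AL κ) (m : ℤ) : LaurentSeries κ :=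
  HahnSeries.ofSuppBddBelow (fun n => (a.coeff n).coeff m) (by
    refine ⟨a.order, ?_⟩
    intro n hn
    by_contra hc
    apply hn
    change (a.coeff n).coeff m = 0
    rw [HahnSeries.coeff_eq_zero_of_lt_order (not_le.1 hc), HahnSeries.coeff_zero])

private theorem B2_P_coeff {κ : Type} [Field κ] (a : AL κ) (m n : ℤ) :
    (B2_P a m).coeff n = (a.coeff n).coeff m := rfl

private theorem B2_P_zero {κ : Type} [Field κ] {a : AL κ} {N : ℕ}
    (h : ∀ n : ℤ, ∀ m : ℤ, m < -(N : ℤ) → (a.coeff n).coeff m = 0) {m : ℤ}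
    (hm : m < -(N : ℤ)) : B2_P a m = 0 := by
  ext n
  rw [B2_P_coeff, h n m hm, HahnSeries.coeff_zero]

private def B2_fun {κ : Type} [Field κ] (a : BL κ) : LaurentSeries (LaurentSeries κ) :=
  HahnSeries.ofSuppBddBelow (fun m => B2_P a.1 m) (by
    obtain ⟨N, hN⟩ := (mem_BL κ).1 a.2
    refine ⟨-(N : ℤ), ?_⟩
    intro m hm
    by_contra hc
    exact hm (B2_P_zero hN (not_le.1 hc)))

private theorem B2_fun_coeff {κ : Type} [Field κ] (a : BL κ) (m : ℤ) :
    (B2_fun a).coeff m = B2_P a.1 m := rfl

private def B2_hom (κ : Type) [Field κ] : BL κ →+* LaurentSeries (LaurentSeries κ) where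
  toFun := B2_fun
  map_one' := by
    ext m n
    rw [B2_fun_coeff, B2_P_coeff]
    show ((1 : AL κ).coeff n).coeff m = _
    rw [HahnSeries.coeff_one, HahnSeries.coeff_one]
    split_ifs with h1 h2 h2
    · rw [HahnSeries.coeff_one, HahnSeries.coeff_one, if_pos h1, if_pos h2]
    · rw [HahnSeries.coeff_one, if_neg h2, HahnSeries.coeff_zero]
    · rw [HahnSeries.coeff_one, if_neg h1, HahnSeries.coeff_zero]
    · rfl
  map_zero' := by
    ext m n
    rw [B2_fun_coeff, B2_P_coeff]
    show ((0 : AL κ).coeff n).coeff m = _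
    rw [HahnSeries.coeff_zero, HahnSeries.coeff_zero, HahnSeries.coeff_zero,
      HahnSeries.coeff_zero]
  map_add' a b := by
    ext m n
    rw [HahnSeries.coeff_add, B2_fun_coeff, B2_fun_coeff, B2_fun_coeff, HahnSeries.coeff_add,
      B2_P_coeff, B2_P_coeff, B2_P_coeff]
    show (((a : AL κ) + (b : AL κ)).coeff n).coeff m = _
    rw [HahnSeries.coeff_add, HahnSeries.coeff_add]
  map_mul' a b := by
    obtain ⟨N, hN⟩ := (mem_BL κ).1 a.2
    obtain ⟨M, hM⟩ := (mem_BL κ).1 b.2
    have ha : ∀ i < (a : AL κ).order, (a : AL κ).coeff i = 0 := fun i hi =>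
      HahnSeries.coeff_eq_zero_of_lt_order hi
    have hb : ∀ i < (b : AL κ).order, (b : AL κ).coeff i = 0 := fun i hi =>
      HahnSeries.coeff_eq_zero_of_lt_order hi
    ext m n
    rw [B2_coeff_mul (B2_fun a) (B2_fun b) (-(N : ℤ)) (-(M : ℤ)) m
      (fun i hi => by rw [B2_fun_coeff]; exact B2_P_zero hN hi)
      (fun i hi => by rw [B2_fun_coeff]; exact B2_P_zero hM hi)]
    rw [B2_fun_coeff, B2_P_coeff, HahnSeries.coeff_sum]
    show (((a : AL κ) * (b : AL κ)).coeff n).coeff m = _
    rw [B2_coeff_mul (a : AL κ) (b : AL κ) _ _ n ha hb, HahnSeries.coeff_sum]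
    have h1 : ∀ i ∈ Finset.Icc (a : AL κ).order (n - (b : AL κ).order),
        ((a : AL κ).coeff i * (b : AL κ).coeff (n - i)).coeff m =
        ∑ j ∈ Finset.Icc (-(N : ℤ)) (m - (-(M : ℤ))), ((a : AL κ).coeff i).coeff j *
          ((b : AL κ).coeff (n - i)).coeff (m - j) := fun i _ =>
      B2_coeff_mul _ _ _ _ _ (hN i) (hM (n - i))
    rw [Finset.sum_congr rfl h1, Finset.sum_comm]
    refine Finset.sum_congr rfl fun j _ => ?_
    rw [B2_fun_coeff, B2_fun_coeff]
    rw [B2_coeff_mul (B2_P a.1 j) (B2_P b.1 (m - j)) (a : AL κ).order (b : AL κ).order n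
      (fun i hi => by rw [B2_P_coeff, ha i hi, HahnSeries.coeff_zero])
      (fun i hi => by rw [B2_P_coeff, hb i hi, HahnSeries.coeff_zero])]
    refine Finset.sum_congr rfl fun i _ => ?_
    rw [B2_P_coeff, B2_P_coeff]

theorem exists_swL (κ : Type) [Field κ] :
    ∃ sw : BL κ →+* LaurentSeries (LaurentSeries κ),
      ∀ (a : BL κ) (m n : ℤ), ((sw a).coeff m).coeff n = ((a : AL κ).coeff n).coeff m := by
  exact ⟨B2_hom κ, fun a m n => rfl⟩

theorem swL_facts {κ : Type} [Field κ] (sw : BL κ →+* LaurentSeries (LaurentSeries κ))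
    (h : ∀ (a : BL κ) (m n : ℤ), ((sw a).coeff m).coeff n = ((a : AL κ).coeff n).coeff m) :
    Function.Injective sw ∧ ∀ f, sw (iB κ f) = AI.zinv (LaurentSeries κ) f := by
  refine ⟨fun a b hab => ?_, fun f => ?_⟩
  · apply Subtype.ext
    ext n m
    rw [← h a m n, ← h b m n, hab]
  · have h1 : sw.comp (iB κ) = AI.zinv (LaurentSeries κ) := by
      refine Polynomial.ringHom_ext ?_ ?_
      · intro c
        rw [RingHom.comp_apply, AI.zinv_C]
        ext m n
        rw [h, iB_coe, inclL, Polynomial.coe_eval₂RingHom, Polynomial.eval₂_C, AI.mapL_coeff,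
          HahnSeries.C_apply, HahnSeries.C_apply, HahnSeries.coeff_single, HahnSeries.coeff_single]
        split_ifs
        · rfl
        · rw [HahnSeries.coeff_zero]
      · rw [RingHom.comp_apply, AI.zinv_X]
        ext m n
        rw [h, iB_coe, inclL, Polynomial.coe_eval₂RingHom, Polynomial.eval₂_X,
          HahnSeries.C_apply, HahnSeries.coeff_single, HahnSeries.coeff_single]
        split_ifs with h1 h2 h2
        · rw [h2, HahnSeries.coeff_single_same, HahnSeries.coeff_one, if_pos h1]
        · rw [HahnSeries.coeff_single_of_ne h2, HahnSeries.coeff_zero]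
        · rw [HahnSeries.coeff_zero, HahnSeries.coeff_one, if_neg h1]
        · rw [HahnSeries.coeff_zero, HahnSeries.coeff_zero]
    exact RingHom.congr_fun h1 f

end

end Pool.Agent.MP_1c8e06_ag.AJ
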