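import Pool.Agent.Lib.MP_1c8e06_ag.AI.A0

set_option autoImplicit false

open Polynomial
open scoped Classical

namespace Pool.Agent.MP_1c8e06_ag.AJ

noncomputable section

/-! ### Structure constants of Galois algebras with basis indexed by the group -/

/-- Structure constants of a `P`-Galois algebra over `B` with basis `e l`, `l : P`:
`e i * e j = ∑ μ i j l • e l`, `1 = ∑ ν l • e l`, `h • e l = ∑ α h l m • e m`,
`∑ x, x • (e i * e j) = T i j`, `∑ e l * T' l m * (x • e m) = if x = 1 then 1 else 0`. -/
structure SC (B : Type) [CommRing B] (P : Type) [Group P] [Fintype P] where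
  μ : P → P → P → B
  α : P → P → P → B
  ν : P → B
  T : P → P → B
  T' : P → P → B
  comm : ∀ i j l, μ i j l = μ j i l
  assoc : ∀ i j k l, ∑ m, μ i j m * μ m k l = ∑ m, μ j k m * μ i m l
  unit : ∀ j l, ∑ i, ν i * μ i j l = if j = l then 1 else 0
  α_one : ∀ l m, α 1 l m = if l = m then 1 else 0
  α_mul : ∀ g h l n, α (g * h) l n = ∑ m, α h l m * α g m n
  α_μ : ∀ h i j l, ∑ m, μ i j m * α h m l = ∑ m, ∑ n, α h i m * α h j n * μ m n l
  α_ν : ∀ h m, ∑ l, ν l * α h l m = ν m
  tr : ∀ i j l, ∑ x, ∑ m, μ i j m * α x m l = T i j * ν l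
  dual : ∀ x k, ∑ l, ∑ m, ∑ n, T' l m * α x m n * μ l n k = if x = 1 then ν k else 0

section
variable {B : Type} [CommRing B] {P : Type} [Group P] [Fintype P]

/-- Base change of structure constants. -/
def SC.map {B' : Type} [CommRing B'] (φ : B →+* B') (S : SC B P) : SC B' P where
  μ i j l := φ (S.μ i j l)
  α h l m := φ (S.α h l m)
  ν l := φ (S.ν l)
  T i j := φ (S.T i j)
  T' i j := φ (S.T' i j)
  comm i j l := by rw [S.comm]
  assoc i j k l := by
    simp only [← map_mul, ← map_sum]
    rw [S.assoc]
  unit j l := by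
    simp only [← map_mul, ← map_sum]
    rw [S.unit]
    split_ifs <;> simp
  α_one l m := by
    rw [S.α_one]
    split_ifs <;> simp
  α_mul g h l n := by
    rw [S.α_mul]
    simp only [map_mul, map_sum]
  α_μ h i j l := by
    simp only [← map_mul, ← map_sum]
    rw [S.α_μ]
  α_ν h m := by
    simp only [← map_mul, ← map_sum]
    rw [S.α_ν]
  tr i j l := by
    simp only [← map_mul, ← map_sum]
    rw [S.tr]
  dual x k := by
    simp only [← map_mul, ← map_sum]
    rw [S.dual]
    split_ifs <;> simp

/-- The algebra with the given structure constants. -/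
def Al (_S : SC B P) : Type := P → B

namespace Al

variable (S : SC B P)

instance : AddCommGroup (Al S) := inferInstanceAs (AddCommGroup (P → B))

theorem add_apply (a b : Al S) (l : P) : (a + b) l = a l + b l := rfl
theorem zero_apply (l : P) : (0 : Al S) l = 0 := rfl
theorem neg_apply (a : Al S) (l : P) : (-a) l = -a l := rfl
theorem sub_apply (a b : Al S) (l : P) : (a - b) l = a l - b l := rfl

theorem sum_apply {ι : Type} (s : Finset ι) (f : ι → Al S) (l : P) :
    (∑ i ∈ s, f i) l = ∑ i ∈ s, f i l := by
  induction s using Finset.induction_on with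
  | empty => rfl
  | insert a s ha ih => rw [Finset.sum_insert ha, Finset.sum_insert ha, add_apply, ih]

variable {S} in
theorem ext {a b : Al S} (h : ∀ l, a l = b l) : a = b := funext h

instance : Mul (Al S) := ⟨fun a b l => ∑ i, ∑ j, a i * b j * S.μ i j l⟩

instance : One (Al S) := ⟨S.ν⟩

theorem mul_apply (a b : Al S) (l : P) : (a * b) l = ∑ i, ∑ j, a i * b j * S.μ i j l := rfl
theorem one_apply (l : P) : (1 : Al S) l = S.ν l := rfl

protected theorem mul_comm' (a b : Al S) : a * b = b * a := by
  refine ext fun l => ?_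
  rw [mul_apply, mul_apply, Finset.sum_comm]
  refine Finset.sum_congr rfl fun j _ => Finset.sum_congr rfl fun i _ => ?_
  rw [S.comm i j l]
  ring

protected theorem one_mul' (a : Al S) : 1 * a = a := by
  refine ext fun l => ?_
  rw [mul_apply, Finset.sum_comm]
  have h : ∀ j, ∑ i, (1 : Al S) i * a j * S.μ i j l = a j * if j = l then 1 else 0 := by
    intro j
    rw [← S.unit j l, Finset.mul_sum]
    refine Finset.sum_congr rfl fun i _ => ?_
    rw [one_apply]
    ring
  rw [Finset.sum_congr rfl fun j _ => h j]
  simp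

protected theorem mul_assoc' (a b c : Al S) : a * b * c = a * (b * c) := by
  refine ext fun l => ?_
  have h1 : (a * b * c) l = ∑ i, ∑ j, ∑ k, a i * b j * c k * ∑ m, S.μ i j m * S.μ m k l := by
    rw [mul_apply]
    calc ∑ m, ∑ k, (a * b) m * c k * S.μ m k l
        = ∑ m, ∑ k, ∑ i, ∑ j, a i * b j * c k * (S.μ i j m * S.μ m k l) := by
          refine Finset.sum_congr rfl fun m _ => Finset.sum_congr rfl fun k _ => ?_
          rw [mul_apply, Finset.sum_mul, Finset.sum_mul]
          refine Finset.sum_congr rfl fun i _ => ?_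
          rw [Finset.sum_mul, Finset.sum_mul]
          refine Finset.sum_congr rfl fun j _ => ?_
          ring
      _ = ∑ i, ∑ j, ∑ k, ∑ m, a i * b j * c k * (S.μ i j m * S.μ m k l) := by
          rw [Finset.sum_congr rfl fun m _ => Finset.sum_comm (s := Finset.univ (α := P))
            (t := Finset.univ (α := P)) (f := fun k i => ∑ j, a i * b j * c k *
              (S.μ i j m * S.μ m k l)), Finset.sum_comm]
          refine Finset.sum_congr rfl fun i _ => ?_
          rw [Finset.sum_congr rfl fun m _ => Finset.sum_comm (s := Finset.univ (α := P))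
            (t := Finset.univ (α := P)) (f := fun k j => a i * b j * c k *
              (S.μ i j m * S.μ m k l)), Finset.sum_comm]
          refine Finset.sum_congr rfl fun j _ => ?_
          rw [Finset.sum_comm]
      _ = _ := by
          refine Finset.sum_congr rfl fun i _ => Finset.sum_congr rfl fun j _ =>
            Finset.sum_congr rfl fun k _ => ?_
          rw [Finset.mul_sum]
  have h2 : (a * (b * c)) l = ∑ i, ∑ j, ∑ k, a i * b j * c k * ∑ m, S.μ j k m * S.μ i m l := by
    rw [mul_apply]
    refine Finset.sum_congr rfl fun i _ => ?_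
    calc ∑ m, a i * (b * c) m * S.μ i m l
        = ∑ m, ∑ j, ∑ k, a i * b j * c k * (S.μ j k m * S.μ i m l) := by
          refine Finset.sum_congr rfl fun m _ => ?_
          rw [mul_apply, Finset.mul_sum, Finset.sum_mul]
          refine Finset.sum_congr rfl fun j _ => ?_
          rw [Finset.mul_sum, Finset.sum_mul]
          refine Finset.sum_congr rfl fun k _ => ?_
          ring
      _ = ∑ j, ∑ k, ∑ m, a i * b j * c k * (S.μ j k m * S.μ i m l) := by
          rw [Finset.sum_comm]
          refine Finset.sum_congr rfl fun j _ => ?_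
          rw [Finset.sum_comm]
      _ = _ := by
          refine Finset.sum_congr rfl fun j _ => Finset.sum_congr rfl fun k _ => ?_
          rw [Finset.mul_sum]
  rw [h1, h2]
  refine Finset.sum_congr rfl fun i _ => Finset.sum_congr rfl fun j _ =>
    Finset.sum_congr rfl fun k _ => ?_
  rw [S.assoc]

protected theorem left_distrib' (a b c : Al S) : a * (b + c) = a * b + a * c := by
  refine ext fun l => ?_
  rw [add_apply, mul_apply, mul_apply, mul_apply, ← Finset.sum_add_distrib]
  refine Finset.sum_congr rfl fun i _ => ?_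
  rw [← Finset.sum_add_distrib]
  refine Finset.sum_congr rfl fun j _ => ?_
  rw [add_apply]
  ring

instance : CommRing (Al S) :=
  { (inferInstance : AddCommGroup (Al S)) with
    mul := (· * ·)
    one := 1
    mul_assoc := Al.mul_assoc' S
    one_mul := Al.one_mul' S
    mul_one := fun a => by rw [Al.mul_comm' S, Al.one_mul' S]
    left_distrib := Al.left_distrib' S
    right_distrib := fun a b c => by
      rw [Al.mul_comm' S (a + b) c, Al.left_distrib' S, Al.mul_comm' S c a, Al.mul_comm' S c b]
    zero_mul := fun a => by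
      refine ext fun l => ?_
      rw [mul_apply]
      simp [zero_apply]
    mul_zero := fun a => by
      refine ext fun l => ?_
      rw [mul_apply]
      simp [zero_apply]
    mul_comm := Al.mul_comm' S }

/-- The basis vectors. -/
def e (l : P) : Al S := fun m => if l = m then 1 else 0

/-- The structure map `B → Al S`. -/
def cst : B →+* Al S where
  toFun b := fun l => b * S.ν l
  map_one' := ext fun l => one_mul _
  map_zero' := ext fun l => zero_mul _
  map_add' a b := ext fun l => add_mul _ _ _
  map_mul' a b := by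
    refine ext fun l => ?_
    rw [mul_apply]
    have h : ∀ i j : P, a * S.ν i * (b * S.ν j) * S.μ i j l =
        a * b * (S.ν j * (S.ν i * S.μ i j l)) := fun i j => by ring
    simp only [h]
    rw [Finset.sum_comm]
    simp only [← Finset.mul_sum, S.unit]
    simp

theorem cst_apply (b : B) (l : P) : cst S b l = b * S.ν l := rfl

theorem cst_mul (b : B) (a : Al S) (l : P) : (cst S b * a) l = b * a l := by
  have h0 : ∀ i, cst S b i = b * (1 : Al S) i := fun i => rfl
  have h1 : (1 * a) l = a l := by rw [one_mul]
  rw [mul_apply] at h1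
  rw [mul_apply, ← h1, Finset.mul_sum]
  refine Finset.sum_congr rfl fun i _ => ?_
  rw [Finset.mul_sum]
  refine Finset.sum_congr rfl fun j _ => ?_
  rw [h0]
  ring

theorem eq_sum (a : Al S) : a = ∑ l, cst S (a l) * e S l := by
  refine ext fun m => ?_
  rw [sum_apply]
  simp only [cst_mul, e]
  simp

theorem e_mul_e (i j : P) : e S i * e S j = ∑ l, cst S (S.μ i j l) * e S l := by
  rw [← eq_sum S (fun l => S.μ i j l)]
  refine ext fun l => ?_
  rw [mul_apply]
  simp [e]

theorem one_eq_sum : (1 : Al S) = ∑ l, cst S (S.ν l) * e S l := eq_sum S 1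

/-- The universal property of `Al S`. -/
def lift {A : Type} [CommRing A] (θ : B →+* A) (y : P → A)
    (h1 : ∀ i j, y i * y j = ∑ l, θ (S.μ i j l) * y l) (h2 : ∑ l, θ (S.ν l) * y l = 1) :
    Al S →+* A where
  toFun a := ∑ l, θ (a l) * y l
  map_one' := h2
  map_zero' := by simp [zero_apply]
  map_add' a b := by simp [add_apply, add_mul, Finset.sum_add_distrib]
  map_mul' a b := by
    calc ∑ l, θ ((a * b) l) * y l
        = ∑ l, ∑ i, ∑ j, θ (a i) * θ (b j) * (θ (S.μ i j l) * y l) := by
          refine Finset.sum_congr rfl fun l _ => ?_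
          rw [mul_apply, map_sum, Finset.sum_mul]
          refine Finset.sum_congr rfl fun i _ => ?_
          rw [map_sum, Finset.sum_mul]
          refine Finset.sum_congr rfl fun j _ => ?_
          rw [map_mul, map_mul]
          ring
      _ = ∑ i, ∑ j, ∑ l, θ (a i) * θ (b j) * (θ (S.μ i j l) * y l) := by
          rw [Finset.sum_comm]
          refine Finset.sum_congr rfl fun i _ => ?_
          rw [Finset.sum_comm]
      _ = ∑ i, ∑ j, θ (a i) * θ (b j) * (y i * y j) := by
          refine Finset.sum_congr rfl fun i _ => Finset.sum_congr rfl fun j _ => ?_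
          rw [h1, Finset.mul_sum]
      _ = (∑ i, θ (a i) * y i) * ∑ j, θ (b j) * y j := by
          rw [Finset.sum_mul]
          refine Finset.sum_congr rfl fun i _ => ?_
          rw [Finset.mul_sum]
          refine Finset.sum_congr rfl fun j _ => ?_
          ring

theorem lift_apply {A : Type} [CommRing A] (θ : B →+* A) (y : P → A)
    (h1 : ∀ i j, y i * y j = ∑ l, θ (S.μ i j l) * y l) (h2 : ∑ l, θ (S.ν l) * y l = 1)
    (a : Al S) : lift S θ y h1 h2 a = ∑ l, θ (a l) * y l := rfl

theorem lift_cst {A : Type} [CommRing A] (θ : B →+* A) (y : P → A)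
    (h1 : ∀ i j, y i * y j = ∑ l, θ (S.μ i j l) * y l) (h2 : ∑ l, θ (S.ν l) * y l = 1)
    (b : B) : lift S θ y h1 h2 (cst S b) = θ b := by
  rw [lift_apply]
  calc ∑ l, θ (cst S b l) * y l = θ b * ∑ l, θ (S.ν l) * y l := by
        rw [Finset.mul_sum]
        refine Finset.sum_congr rfl fun l _ => ?_
        rw [cst_apply, map_mul, mul_assoc]
    _ = θ b := by rw [h2, mul_one]

theorem lift_e {A : Type} [CommRing A] (θ : B →+* A) (y : P → A)
    (h1 : ∀ i j, y i * y j = ∑ l, θ (S.μ i j l) * y l) (h2 : ∑ l, θ (S.ν l) * y l = 1)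
    (l : P) : lift S θ y h1 h2 (e S l) = y l := by
  rw [lift_apply]
  simp [e, apply_ite θ]

/-- Ring homomorphisms from `Al S` are determined by their values on `cst` and `e`. -/
theorem hom_ext {A : Type} [CommRing A] {f g : Al S →+* A} (h1 : ∀ b, f (cst S b) = g (cst S b))
    (h2 : ∀ l, f (e S l) = g (e S l)) : f = g := by
  refine RingHom.ext fun a => ?_
  rw [eq_sum S a, map_sum, map_sum]
  refine Finset.sum_congr rfl fun l _ => ?_
  rw [map_mul, map_mul, h1, h2]

/-- The action of `P` on `Al S`, for one element. -/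
def actOne (h : P) : Al S →+* Al S :=
  lift S (cst S) (fun l => (fun m => S.α h l m : Al S))
    (by
      intro i j
      refine ext fun l => ?_
      rw [mul_apply, sum_apply, ← S.α_μ]
      refine Finset.sum_congr rfl fun m _ => ?_
      rw [cst_mul])
    (by
      refine ext fun m => ?_
      rw [sum_apply, one_apply, ← S.α_ν h m]
      refine Finset.sum_congr rfl fun l _ => ?_
      rw [cst_mul])

theorem actOne_apply (h : P) (a : Al S) (m : P) : actOne S h a m = ∑ l, a l * S.α h l m := by
  rw [actOne, lift_apply, sum_apply]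
  refine Finset.sum_congr rfl fun l _ => ?_
  rw [cst_mul]

/-- The action of `P` on `Al S`. -/
def act : P →* (Al S →+* Al S) where
  toFun := actOne S
  map_one' := by
    refine RingHom.ext fun a => ext fun m => ?_
    rw [actOne_apply]
    simp [S.α_one, RingHom.one_def]
  map_mul' g h := by
    refine RingHom.ext fun a => ext fun n => ?_
    rw [actOne_apply, RingHom.mul_def, RingHom.comp_apply, actOne_apply]
    calc ∑ l, a l * S.α (g * h) l n = ∑ l, ∑ m, a l * S.α h l m * S.α g m n := by
          refine Finset.sum_congr rfl fun l _ => ?_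
          rw [S.α_mul, Finset.mul_sum]
          refine Finset.sum_congr rfl fun m _ => ?_
          ring
      _ = ∑ m, ∑ l, a l * S.α h l m * S.α g m n := Finset.sum_comm
      _ = ∑ m, actOne S h a m * S.α g m n := by
          refine Finset.sum_congr rfl fun m _ => ?_
          rw [actOne_apply, Finset.sum_mul]

theorem act_apply (h : P) (a : Al S) (m : P) : act S h a m = ∑ l, a l * S.α h l m :=
  actOne_apply S h a m

theorem act_e (h l : P) : act S h (e S l) = ∑ m, cst S (S.α h l m) * e S m := by
  rw [← eq_sum S (fun m => S.α h l m)]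
  refine ext fun m => ?_
  rw [act_apply]
  simp [e]

theorem act_cst (h : P) (b : B) : act S h (cst S b) = cst S b := by
  change actOne S h (cst S b) = cst S b
  rw [actOne, lift_cst]

theorem act_mul_apply (g h : P) (a : Al S) : act S (g * h) a = act S g (act S h a) := by
  rw [map_mul]
  rfl

theorem act_one_apply (a : Al S) : act S 1 a = a := by
  rw [map_one]
  rfl

/-- Functoriality in the base ring: `S'` has the images of the constants of `S`. -/
def homOf {B' : Type} [CommRing B'] (φ : B →+* B') (S' : SC B' P)
    (h1 : ∀ i j l, S'.μ i j l = φ (S.μ i j l)) (h2 : ∀ l, S'.ν l = φ (S.ν l)) :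
    Al S →+* Al S' :=
  lift S ((cst S').comp φ) (e S')
    (by
      intro i j
      rw [e_mul_e]
      refine Finset.sum_congr rfl fun l _ => ?_
      rw [h1]
      rfl)
    (by
      rw [one_eq_sum]
      refine Finset.sum_congr rfl fun l _ => ?_
      rw [h2]
      rfl)

theorem homOf_apply {B' : Type} [CommRing B'] (φ : B →+* B') (S' : SC B' P)
    (h1 : ∀ i j l, S'.μ i j l = φ (S.μ i j l)) (h2 : ∀ l, S'.ν l = φ (S.ν l)) (a : Al S) (l : P) :
    homOf S φ S' h1 h2 a l = φ (a l) := by
  rw [homOf, lift_apply]
  have h : (∑ l, ((cst S').comp φ) (a l) * e S' l) = (fun l => φ (a l) : Al S') :=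
    (eq_sum S' (fun l => φ (a l) : Al S')).symm
  rw [h]

/-- Base change on the algebras. -/
def mapA {B' : Type} [CommRing B'] (φ : B →+* B') : Al S →+* Al (S.map φ) :=
  homOf S φ (S.map φ) (fun _ _ _ => rfl) (fun _ => rfl)

theorem mapA_apply {B' : Type} [CommRing B'] (φ : B →+* B') (a : Al S) (l : P) :
    mapA S φ a l = φ (a l) := homOf_apply S φ _ _ _ a l

theorem mapA_cst {B' : Type} [CommRing B'] (φ : B →+* B') (b : B) :
    mapA S φ (cst S b) = cst (S.map φ) (φ b) := by
  refine ext fun l => ?_
  rw [mapA_apply, cst_apply, cst_apply, map_mul]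
  rfl

theorem mapA_e {B' : Type} [CommRing B'] (φ : B →+* B') (l : P) :
    mapA S φ (e S l) = e (S.map φ) l := by
  refine ext fun m => ?_
  rw [mapA_apply, e, e]
  split_ifs <;> simp

theorem mapA_act {B' : Type} [CommRing B'] (φ : B →+* B') (h : P) (a : Al S) :
    mapA S φ (act S h a) = act (S.map φ) h (mapA S φ a) := by
  refine ext fun m => ?_
  rw [mapA_apply, act_apply, act_apply, map_sum]
  refine Finset.sum_congr rfl fun l _ => ?_
  rw [map_mul, mapA_apply]
  rfl

end Al

/-! ### Explicit Galois algebras with values in a ring -/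

/-- A family of structure constants for a `G`-algebra (no axioms). -/
structure Ks (B : Type) (G : Type) where
  μ : G → G → G → B
  α : G → G → G → B
  ν : G → B
  T : G → G → B
  T' : G → G → B

/-- Base change of structure constants. -/
def Ks.map {B B' : Type} {G : Type} (φ : B → B') (k : Ks B G) : Ks B' G where
  μ i j l := φ (k.μ i j l)
  α h l m := φ (k.α h l m)
  ν l := φ (k.ν l)
  T i j := φ (k.T i j)
  T' i j := φ (k.T' i j)

/-- The structure constants with respect to the basis `b' l = ∑ g l m • b m`; `gi` is the inverse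
of the matrix `g`. -/
def Ks.chb {B : Type} [CommRing B] {G : Type} [Fintype G] (k : Ks B G) (g gi : Matrix G G B) :
    Ks B G where
  μ j l m := ∑ a, ∑ b, ∑ c, g j a * g l b * k.μ a b c * gi c m
  α h l m := ∑ a, ∑ c, g l a * k.α h a c * gi c m
  ν m := ∑ a, k.ν a * gi a m
  T j l := ∑ a, ∑ b, g j a * g l b * k.T a b
  T' l m := ∑ a, ∑ b, gi a l * k.T' a b * gi b m

/-- The structure constants of `S`. -/
def SC.ks (S : SC B P) : Ks B P := ⟨S.μ, S.α, S.ν, S.T, S.T'⟩

/-- Explicit data of a `G`-Galois algebra over `B`, embedded in the functions `G → A` which are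
equivariant for `P → G`: `b l x` is the value of the `l`-th basis element at the point `x`. -/
structure GD {G : Type} [Group G] [Fintype G] (i : P →* G) {A : Type} [CommRing A] (ze : B →+* A)
    (act : P →* (A →+* A)) where
  b : G → G → A
  k : Ks B G
  hP : ∀ u l x, b l (i u * x) = act u (b l x)
  hmul : ∀ j l x, b j x * b l x = ∑ m, ze (k.μ j l m) * b m x
  hact : ∀ h l x, b l (x * h) = ∑ m, ze (k.α h l m) * b m x
  hone : ∀ x, ∑ l, ze (k.ν l) * b l x = 1
  htr : ∀ j l, ∑ x, b j x * b l x = ze (k.T j l)
  hdual : ∀ x x', ∑ l, ∑ m, b l x * ze (k.T' l m) * b m x' = if x = x' then 1 else 0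

/-- Push forward of the data along `B → B'`, `A → A'`, `P' → P`. -/
def GD.push {G : Type} [Group G] [Fintype G] {i : P →* G} {A : Type} [CommRing A] {ze : B →+* A}
    {act : P →* (A →+* A)} (D : GD i ze act) {B' A' P' : Type} [CommRing B'] [CommRing A']
    [Group P'] [Fintype P'] (φ : B →+* B') (ψ : A →+* A') (j : P' →* P) (i' : P' →* G)
    (hi : ∀ u, i' u = i (j u)) (ze' : B' →+* A') (act' : P' →* (A' →+* A'))
    (hze : ∀ b, ψ (ze b) = ze' (φ b)) (hact : ∀ u a, ψ (act (j u) a) = act' u (ψ a)) :
    GD i' ze' act' where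
  b l x := ψ (D.b l x)
  k := D.k.map φ
  hP u l x := by rw [hi, D.hP, hact]
  hmul j l x := by
    rw [← map_mul, D.hmul, map_sum]
    simp only [map_mul, hze, Ks.map]
  hact h l x := by
    rw [D.hact, map_sum]
    simp only [map_mul, hze, Ks.map]
  hone x := by
    rw [← map_one ψ, ← D.hone x, map_sum]
    simp only [map_mul, hze, Ks.map]
  htr j l := by
    change _ = ze' (φ (D.k.T j l))
    rw [← hze, ← D.htr, map_sum]
    simp only [map_mul]
  hdual x x' := by
    have h := congrArg ψ (D.hdual x x')
    simp only [map_sum, map_mul, hze] at h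
    change ∑ l, ∑ m, ψ (D.b l x) * ze' (φ (D.k.T' l m)) * ψ (D.b m x') = _
    rw [h]
    split_ifs <;> simp

end

/-- Locally constant elements take the same value at `1` and at all points of `H`. -/
def GD.Conn' {R : Type} [CommRing R] {P : Type} [Group P] [Fintype P] {G : Type} [Group G]
    [Fintype G] {i : P →* G} {A : Type} [CommRing A] {ze : R[X] →+* A} {act : P →* (A →+* A)}
    (D : GD i ze act) (H : Subgroup G) : Prop :=
  ∀ h ∈ H, ∀ (f : G → R[X]) (c : G → R),
    (∀ x, ∑ l, ze (f l) * D.b l x = ze (C (c x))) → c h = c 1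

/-! ### Types: Galois algebras over the affine line and their completions at infinity -/

section
variable {R : Type} [CommRing R] {P : Type} [Group P] [Fintype P]

/-- The completion at infinity of the `P`-Galois algebra `S` over the affine line. -/
abbrev El (S : SC R[X] P) : Type := Al (S.map (AI.zinv R))

/-- The structure map of `El S`. -/
def oE (S : SC R[X] P) : LaurentSeries R →+* El S := Al.cst (S.map (AI.zinv R))

/-- The map `R[X] → El S`, `X ↦ s⁻¹`. -/
def zeE (S : SC R[X] P) : R[X] →+* El S := (oE S).comp (AI.zinv R)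

/-- The action of `P` on `El S`. -/
def actE (S : SC R[X] P) : P →* (El S →+* El S) := Al.act (S.map (AI.zinv R))

/-- All quotients of order `p` of `S` are ramified at infinity, with a certificate. -/
def TC (p : ℕ) (S : SC R[X] P) : Prop :=
  ∀ χ : P → ZMod p, (∀ u v, χ (u * v) = χ u + χ v) → (∃ u, χ u ≠ 0) →
    ∃ (y : Al S) (F : R[X]), ¬ p ∣ F.natDegree ∧
      (∀ u, Al.act S u y = y + (((χ u).val : ℕ) : Al S)) ∧ y ^ p - y = Al.cst S F

end

/-- `RE p k i H`: there is a `G`-Galois algebra over the affine line over `k`, with local group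
`P` embedded by `i`, totally ramified, whose connected component has a group containing `H`. -/
def RE (p : ℕ) (k : Type) [Field k] {P : Type} [Group P] [Fintype P] {G : Type} [Group G]
    [Fintype G] (i : P →* G) (H : Subgroup G) : Prop :=
  ∃ S : SC k[X] P, TC p S ∧ ∃ D : GD i (zeE S) (actE S), D.Conn' H

end

end Pool.Agent.MP_1c8e06_ag.AJ
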