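import Pool.Agent.Lib.MP_1c8e06_ag.AJ.Defs

set_option autoImplicit false

open Polynomial
open scoped Classical

namespace Pool.Agent.MP_1c8e06_ag.AJ

noncomputable section

/-! ### The rings of the patching argument

`κ((s))((t))` (outer variable `t`): functions on the annulus; `z = s⁻¹`. -/

section
variable (κ : Type) [Field κ]

/-- `κ((s))((t))`: functions on the annulus. -/
abbrev AL : Type := LaurentSeries (LaurentSeries κ)

/-- `κ[X]((t)) → κ((s))((t))`, `X ↦ s⁻¹`: functions on the closed disc. -/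
def jP : LaurentSeries κ[X] →+* AL κ := AI.mapL (AI.zinv κ)

/-- `κ((t))[X] → κ((s))((t))`, `X ↦ s⁻¹`. -/
def inclL : (LaurentSeries κ)[X] →+* AL κ :=
  Polynomial.eval₂RingHom (AI.mapL (HahnSeries.C : κ →+* LaurentSeries κ))
    (HahnSeries.C (HahnSeries.single (-1 : ℤ) (1 : κ)))

/-- `κ((t))[X] → κ[X]((t))`. -/
def iP : (LaurentSeries κ)[X] →+* LaurentSeries κ[X] :=
  Polynomial.eval₂RingHom (AI.mapL (Polynomial.C : κ →+* κ[X])) (HahnSeries.C X)

/-- The translation `P(X) ↦ P(X + t⁻¹)` on `κ((t))[X]`. -/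
def trP : (LaurentSeries κ)[X] →+* (LaurentSeries κ)[X] :=
  Polynomial.compRingHom (X + C (HahnSeries.single (-1 : ℤ) (1 : κ)))

/-- Elements of `κ((s))((t))` whose coefficients have bounded poles in `s`: functions on the
complement of the open disc, with a pole of finite order at infinity. -/
def BL : Subring (AL κ) where
  carrier := {a | ∃ N : ℕ, ∀ n : ℤ, ∀ m : ℤ, m < -(N : ℤ) → (a.coeff n).coeff m = 0}
  mul_mem' := by
    rintro a b ⟨N, hN⟩ ⟨M, hM⟩
    refine ⟨N + M, fun n m hm => ?_⟩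
    rw [HahnSeries.coeff_mul, HahnSeries.coeff_sum]
    refine Finset.sum_eq_zero fun ij _ => ?_
    rw [HahnSeries.coeff_mul]
    refine Finset.sum_eq_zero fun kl hkl => ?_
    rw [Finset.mem_antidiagonal] at hkl
    obtain ⟨h1, h2, h3⟩ := hkl
    have hk : -(N : ℤ) ≤ kl.1 := by
      by_contra hc
      exact h1 (hN ij.1 kl.1 (by omega))
    have hl : -(M : ℤ) ≤ kl.2 := by
      by_contra hc
      exact h2 (hM ij.2 kl.2 (by omega))
    exfalso
    push_cast at hm
    omega
  one_mem' := by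
    refine ⟨0, fun n m hm => ?_⟩
    rw [HahnSeries.coeff_one]
    split_ifs with h
    · rw [HahnSeries.coeff_one, if_neg (by push_cast at hm; omega)]
    · rfl
  add_mem' := by
    rintro a b ⟨N, hN⟩ ⟨M, hM⟩
    refine ⟨N + M, fun n m hm => ?_⟩
    push_cast at hm
    rw [HahnSeries.coeff_add, HahnSeries.coeff_add, hN n m (by omega), hM n m (by omega), add_zero]
  zero_mem' := ⟨0, fun n m _ => by simp⟩
  neg_mem' := by
    rintro a ⟨N, hN⟩
    refine ⟨N, fun n m hm => ?_⟩
    rw [HahnSeries.coeff_neg, HahnSeries.coeff_neg, hN n m hm, neg_zero]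

theorem mem_BL {a : AL κ} : a ∈ BL κ ↔
    ∃ N : ℕ, ∀ n : ℤ, ∀ m : ℤ, m < -(N : ℤ) → (a.coeff n).coeff m = 0 := Iff.rfl

theorem CC_mem (a : LaurentSeries κ) : (HahnSeries.C a : AL κ) ∈ BL κ := by
  refine ⟨(-a.order).toNat, fun n m hm => ?_⟩
  rw [HahnSeries.C_apply, HahnSeries.coeff_single]
  split_ifs
  · exact HahnSeries.coeff_eq_zero_of_lt_order (by omega)
  · rfl

theorem mapC_mem (a : LaurentSeries κ) :
    AI.mapL (HahnSeries.C : κ →+* LaurentSeries κ) a ∈ BL κ := by
  refine ⟨0, fun n m hm => ?_⟩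
  rw [AI.mapL_coeff, HahnSeries.C_apply, HahnSeries.coeff_single_of_ne]
  push_cast at hm
  omega

theorem inclL_mem (P : (LaurentSeries κ)[X]) : inclL κ P ∈ BL κ := by
  induction P using Polynomial.induction_on' with
  | add f g hf hg => rw [map_add]; exact (BL κ).add_mem hf hg
  | monomial n a =>
    rw [inclL, Polynomial.coe_eval₂RingHom, Polynomial.eval₂_monomial]
    exact (BL κ).mul_mem (mapC_mem κ a) ((BL κ).pow_mem (CC_mem κ _) n)

/-- `inclL` as a map to `BL`. -/
def iB : (LaurentSeries κ)[X] →+* BL κ := (inclL κ).codRestrict (BL κ) (inclL_mem κ)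

theorem iB_coe (P : (LaurentSeries κ)[X]) : ((iB κ P : BL κ) : AL κ) = inclL κ P := rfl

end

/-! ### Laurent series in `t` over the local algebra of a cover of the disc -/

section
variable {κ : Type} [Field κ] {P : Type} [Group P] [Fintype P]

/-- `κ((s))((t)) → El S((t))`. -/
def oL (S : SC κ[X] P) : AL κ →+* LaurentSeries (El S) := AI.mapL (oE S)

/-- The action of `P` on `El S((t))`, coefficientwise. -/
def actL (S : SC κ[X] P) : P →* (LaurentSeries (El S) →+* LaurentSeries (El S)) where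
  toFun u := AI.mapL (actE S u)
  map_one' := by
    refine RingHom.ext fun a => ?_
    ext n
    rw [AI.mapL_coeff, map_one]
    rfl
  map_mul' u v := by
    refine RingHom.ext fun a => ?_
    ext n
    rw [AI.mapL_coeff, map_mul]
    rfl

theorem actL_coeff (S : SC κ[X] P) (u : P) (a : LaurentSeries (El S)) (n : ℤ) :
    (actL S u a).coeff n = actE S u (a.coeff n) := rfl

theorem oL_coeff (S : SC κ[X] P) (a : AL κ) (n : ℤ) : (oL S a).coeff n = oE S (a.coeff n) := rfl

end

end

end Pool.Agent.MP_1c8e06_ag.AJ
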