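import Pool.Agent.Lib.MP_1c8e06_ag.AJ.Defs2

set_option autoImplicit false

open Polynomial
open scoped Classical

namespace Pool.Agent.MP_1c8e06_ag.AJ

noncomputable section

/-! ### The environment of the two-disc patching argument -/

/-- All expansion homomorphisms.  `BL κ` is the ring of functions on the complement of an open unit
disc.  `sw1`: expansion at infinity, for the disc `|z| < 1`; `sw2`: expansion at infinity (in
`z`), for the disc `|z - t⁻¹| < 1`; `nab`: restriction of functions on the complement of the first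
disc to the second disc. -/
structure EnvL (κ : Type) [Field κ] where
  sw1 : BL κ →+* LaurentSeries (LaurentSeries κ)
  sw2 : BL κ →+* LaurentSeries (LaurentSeries κ)
  nab : BL κ →+* LaurentSeries κ[X]
  sw1_iB : ∀ f, sw1 (iB κ f) = AI.zinv (LaurentSeries κ) f
  sw2_iB : ∀ f, sw2 (iB κ (trP κ f)) = AI.zinv (LaurentSeries κ) f
  nab_iB : ∀ f, nab (iB κ f) = iP κ (trP κ f)
  sw1_inj : Function.Injective sw1
  sw2_inj : Function.Injective sw2
  bb : ∀ a b : BL κ, sw1 a = sw2 b → ∃ f, iB κ f = a ∧ iB κ (trP κ f) = b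

/-! ### Artin-Schreier extensions of rings -/

section
variable {A A' : Type} [CommRing A] [CommRing A']

/-- The polynomial `Y ^ p - Y - b`. -/
def asP (p : ℕ) (b : A) : A[X] := X ^ p - X - C b

/-- `A[Y]/(Y ^ p - Y - b)`. -/
abbrev AS (p : ℕ) (b : A) : Type := AdjoinRoot (asP p b)

/-- The structure map. -/
def AS.of (p : ℕ) (b : A) : A →+* AS p b := AdjoinRoot.of (asP p b)

/-- The class of `Y`. -/
def AS.rt (p : ℕ) (b : A) : AS p b := AdjoinRoot.root (asP p b)

theorem eval₂_asP {p : ℕ} {b : A} (σ : A →+* A') (y : A') :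
    Polynomial.eval₂ σ y (asP p b) = y ^ p - y - σ b := by
  unfold asP
  rw [eval₂_sub, eval₂_sub, eval₂_X_pow, eval₂_X, eval₂_C]

theorem AS.rt_eq (p : ℕ) (b : A) : AS.rt p b ^ p - AS.rt p b = AS.of p b b := by
  have h : Polynomial.eval₂ (AdjoinRoot.of (asP p b)) (AdjoinRoot.root (asP p b)) (asP p b) = 0 :=
    AdjoinRoot.eval₂_root (asP p b)
  rw [eval₂_asP] at h
  exact sub_eq_zero.1 h

/-- The universal property. -/
def AS.lift {p : ℕ} {b : A} (σ : A →+* A') (y : A') (hy : y ^ p - y = σ b) : AS p b →+* A' :=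
  AdjoinRoot.lift σ y (by rw [eval₂_asP, hy, sub_self])

theorem AS.lift_of {p : ℕ} {b : A} (σ : A →+* A') (y : A') (hy : y ^ p - y = σ b) (a : A) :
    AS.lift σ y hy (AS.of p b a) = σ a := AdjoinRoot.lift_of _

theorem AS.lift_rt {p : ℕ} {b : A} (σ : A →+* A') (y : A') (hy : y ^ p - y = σ b) :
    AS.lift σ y hy (AS.rt p b) = y := AdjoinRoot.lift_root _

theorem AS.hom_ext {p : ℕ} {b : A} {f g : AS p b →+* A'} (h1 : ∀ a, f (AS.of p b a) = g (AS.of p b a))
    (h2 : f (AS.rt p b) = g (AS.rt p b)) : f = g :=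
  AdjoinRoot.ringHom_ext (RingHom.ext h1) h2

theorem add_pow_p {p : ℕ} [hp : Fact p.Prime] (h0 : (p : A) = 0) (x y : A) :
    (x + y) ^ p = x ^ p + y ^ p := by
  obtain ⟨r, hr⟩ := exists_add_pow_prime_eq hp.out x y
  rw [hr, h0]
  ring

/-- The ring homomorphism of `A[Y]/(Y ^ p - Y - b)` which is `σ` on `A` and maps `Y` to `Y + r`. -/
def AS.aff {p : ℕ} [hp : Fact p.Prime] (h0 : (p : A) = 0) {b : A} (σ : A →+* A) (r : A)
    (h : σ b = b + (r ^ p - r)) : AS p b →+* AS p b :=
  AS.lift ((AS.of p b).comp σ) (AS.rt p b + AS.of p b r) (by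
    have h1 : (p : AS p b) = 0 := by
      rw [← map_natCast (AS.of p b) p, h0, map_zero]
    rw [add_pow_p h1, RingHom.comp_apply, h, map_add, map_sub, map_pow, ← AS.rt_eq p b]
    ring)

theorem AS.aff_of {p : ℕ} [hp : Fact p.Prime] (h0 : (p : A) = 0) {b : A} (σ : A →+* A) (r : A)
    (h : σ b = b + (r ^ p - r)) (a : A) : AS.aff h0 σ r h (AS.of p b a) = AS.of p b (σ a) :=
  AS.lift_of _ _ _ a

theorem AS.aff_rt {p : ℕ} [hp : Fact p.Prime] (h0 : (p : A) = 0) {b : A} (σ : A →+* A) (r : A)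
    (h : σ b = b + (r ^ p - r)) : AS.aff h0 σ r h (AS.rt p b) = AS.rt p b + AS.of p b r :=
  AS.lift_rt _ _ _

end

theorem charP_Al {p : ℕ} {R : Type} [CommRing R] [CharP R p] {P : Type} [Group P] [Fintype P]
    (S : SC R[X] P) : ((p : ℕ) : Al S) = 0 := by
  rw [← map_natCast (Al.cst S) p, CharP.cast_eq_zero, map_zero]

/-- The substitution `f(X) ↦ f(h)`, `κ[X] → κ((t))[X]`. -/
def subK {κ : Type} [Field κ] (h : (LaurentSeries κ)[X]) : κ[X] →+* (LaurentSeries κ)[X] :=
  Polynomial.eval₂RingHom ((Polynomial.C : LaurentSeries κ →+* (LaurentSeries κ)[X]).comp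
    (HahnSeries.C : κ →+* LaurentSeries κ)) h

/-- All coordinates of `a` vanish below `N`. -/
def Fl {R : Type} [CommRing R] {P : Type} [Group P] [Fintype P] (S : SC R[X] P) (N : ℤ)
    (a : El S) : Prop := ∀ l : P, ∀ n : ℤ, n < N → ((a l : LaurentSeries R)).coeff n = 0

/-- All coefficients of `a` are in the subring `R`. -/
def CoefIn {κ : Type} [Field κ] {P : Type} [Group P] [Fintype P] {S : SC κ[X] P} (R : Subring κ)
    (a : El S) : Prop := ∀ (l : P) (n : ℤ), ((a l : LaurentSeries κ)).coeff n ∈ R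

end

end Pool.Agent.MP_1c8e06_ag.AJ
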