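import Pool.Agent.Lib.MP_1c8e06_ag.AJ.Defs3

set_option autoImplicit false

open Polynomial
open scoped Classical

namespace Pool.Agent.MP_1c8e06_ag.AJ

noncomputable section

/-! ### Functoriality of the completions in the coefficient ring -/

section
variable {R R' : Type} [CommRing R] [CommRing R'] {P : Type} [Group P] [Fintype P]

/-- Coefficientwise application of `φ : R → R'` to `El S`. -/
def mapE (φ : R →+* R') (S : SC R[X] P) : El S →+* El (S.map (Polynomial.mapRingHom φ)) :=
  Al.homOf (S.map (AI.zinv R)) (AI.mapL φ) ((S.map (Polynomial.mapRingHom φ)).map (AI.zinv R'))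
    (fun _ _ _ => (AI.mapL_zinv φ _).symm) (fun _ => (AI.mapL_zinv φ _).symm)

theorem mapE_apply (φ : R →+* R') (S : SC R[X] P) (a : El S) (l : P) :
    mapE φ S a l = AI.mapL φ (a l) := Al.homOf_apply _ _ _ _ _ a l

theorem mapE_coeff (φ : R →+* R') (S : SC R[X] P) (a : El S) (l : P) (n : ℤ) :
    (mapE φ S a l : LaurentSeries R').coeff n = φ ((a l : LaurentSeries R).coeff n) := by
  rw [mapE_apply]
  rfl

theorem mapE_oE (φ : R →+* R') (S : SC R[X] P) (c : LaurentSeries R) :
    mapE φ S (oE S c) = oE (S.map (Polynomial.mapRingHom φ)) (AI.mapL φ c) := by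
  refine Al.ext fun l => ?_
  rw [mapE_apply, oE, oE, Al.cst_apply, Al.cst_apply, map_mul]
  congr 1
  exact AI.mapL_zinv φ _

theorem mapE_zeE (φ : R →+* R') (S : SC R[X] P) (f : R[X]) :
    mapE φ S (zeE S f) = zeE (S.map (Polynomial.mapRingHom φ)) (f.map φ) := by
  rw [zeE, RingHom.comp_apply, mapE_oE, AI.mapL_zinv]
  rfl

theorem mapE_actE (φ : R →+* R') (S : SC R[X] P) (u : P) (a : El S) :
    mapE φ S (actE S u a) = actE (S.map (Polynomial.mapRingHom φ)) u (mapE φ S a) := by
  refine Al.ext fun m => ?_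
  rw [mapE_apply, actE, actE, Al.act_apply, Al.act_apply, map_sum]
  refine Finset.sum_congr rfl fun l _ => ?_
  rw [map_mul, mapE_apply]
  congr 1
  exact AI.mapL_zinv φ _

theorem mapE_injective (φ : R →+* R') (hφ : Function.Injective φ) (S : SC R[X] P) :
    Function.Injective (mapE φ S) := by
  intro a b h
  refine Al.ext fun l => ?_
  ext n
  have h1 := congrArg (fun x : El (S.map (Polynomial.mapRingHom φ)) =>
    (x l : LaurentSeries R').coeff n) h
  simp only [mapE_coeff] at h1
  exact hφ h1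

end

/-- The component of the algebra containing the point `1` is stable under `H`. -/
def GD.Conn {R : Type} [CommRing R] {P : Type} [Group P] [Fintype P] {G : Type} [Group G]
    [Fintype G] {i : P →* G} {A : Type} [CommRing A] {ze : R[X] →+* A} {act : P →* (A →+* A)}
    (D : GD i ze act) (H : Subgroup G) : Prop :=
  ∀ h ∈ H, ∀ f : G → R[X], ∑ l, ze (f l) * D.b l 1 = 0 → ∑ l, ze (f l) * D.b l h = 0

/-- The nonunits of the subring `V`. -/
def NU {E : Type} [CommRing E] (V : Subring E) : Set E := {x | x ∈ V ∧ ∀ y ∈ V, x * y ≠ 1}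

/-- The function field of a connected cover, with its embedding in `El S`. -/
structure FD {k : Type} [Field k] {P : Type} [Group P] [Fintype P] {G : Type} [Group G]
    [Fintype G] {i : P →* G} {S : SC k[X] P} (D : GD i (zeE S) (actE S)) (L : Type) [Field L]
    [Algebra (RatFunc k) L] where
  ρ : G ≃* (L ≃ₐ[RatFunc k] L)
  j : L →+* El S
  bL : G → L
  j_bL : ∀ l, j (bL l) = D.b l 1
  j_alg : ∀ f : k[X], j (algebraMap (RatFunc k) L (algebraMap k[X] (RatFunc k) f)) = zeE S f
  j_ρ : ∀ h l, j (ρ h (bL l)) = D.b l h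
  span : ∀ a : L, ∃ r : G → RatFunc k, a = ∑ l, r l • bL l
  j_act : ∀ (u : P) (a : L), actE S u (j a) = j (ρ (i u) a)

end

end Pool.Agent.MP_1c8e06_ag.AJ
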