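import Pool.Agent.Lib.MP_1c8e06_ag.AJ.Defs4

set_option autoImplicit false

open Polynomial
open scoped Classical

namespace Pool.Agent.MP_1c8e06_ag.AJ

noncomputable section

/-! ### Scalars from `ZMod p` -/

section
variable {p : ℕ} {A A' : Type} [CommRing A] [CommRing A']

/-- The image of `x : ZMod p` in a ring of characteristic `p`. -/
def zc (A : Type) [CommRing A] (x : ZMod p) : A := ((x.val : ℕ) : A)

theorem zc_natCast [NeZero p] (h0 : (p : A) = 0) (n : ℕ) : zc A (n : ZMod p) = (n : A) := by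
  have h : n = n % p + p * (n / p) := (Nat.mod_add_div n p).symm
  rw [zc, ZMod.val_natCast]
  conv_rhs => rw [h]
  push_cast
  rw [h0]
  ring

theorem zc_zero : zc A (0 : ZMod p) = 0 := by
  rw [zc, ZMod.val_zero, Nat.cast_zero]

theorem zc_one [Fact p.Prime] : zc A (1 : ZMod p) = 1 := by
  rw [zc, ZMod.val_one, Nat.cast_one]

theorem zc_add [NeZero p] (h0 : (p : A) = 0) (x y : ZMod p) : zc A (x + y) = zc A x + zc A y := by
  have h : x + y = ((x.val + y.val : ℕ) : ZMod p) := by
    rw [Nat.cast_add, ZMod.natCast_zmod_val, ZMod.natCast_zmod_val]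
  rw [h, zc_natCast h0, Nat.cast_add]
  rfl

theorem zc_mul [NeZero p] (h0 : (p : A) = 0) (x y : ZMod p) : zc A (x * y) = zc A x * zc A y := by
  have h : x * y = ((x.val * y.val : ℕ) : ZMod p) := by
    rw [Nat.cast_mul, ZMod.natCast_zmod_val, ZMod.natCast_zmod_val]
  rw [h, zc_natCast h0, Nat.cast_mul]
  rfl

theorem zc_pow [Fact p.Prime] (h0 : (p : A) = 0) (x : ZMod p) : zc A x ^ p = zc A x := by
  have h : ∀ n : ℕ, zc A (x ^ n) = zc A x ^ n := by
    intro n
    induction n with
    | zero => rw [pow_zero, pow_zero, zc_one]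
    | succ n ih => rw [pow_succ, pow_succ, zc_mul h0, ih]
  rw [← h, ZMod.pow_card]

theorem map_zc (f : A →+* A') (x : ZMod p) : f (zc A x) = zc A' x := by
  rw [zc, zc, map_natCast]

end

/-! ### Evaluation of an abstract Galois algebra at the points of a cover -/

section
variable {B : Type} [CommRing B] {P : Type} [Group P] [Fintype P] {G : Type} [Group G] [Fintype G]
  {i : P →* G} {A : Type} [CommRing A] {ze : B →+* A} {act : P →* (A →+* A)}

/-- The value of `a : Al S` at the point `x`, where `S` has the structure constants of `D`. -/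
def GD.ev (D : GD i ze act) (S : SC B G) (hS : S.ks = D.k) (x : G) : Al S →+* A :=
  Al.lift S ze (fun l => D.b l x)
    (by
      intro j l
      rw [D.hmul, ← hS]
      rfl)
    (by
      have h := D.hone x
      rw [← hS] at h
      exact h)

theorem GD.ev_apply (D : GD i ze act) (S : SC B G) (hS : S.ks = D.k) (x : G) (a : Al S) :
    D.ev S hS x a = ∑ l, ze (a l) * D.b l x := Al.lift_apply _ _ _ _ _ a

theorem GD.ev_cst (D : GD i ze act) (S : SC B G) (hS : S.ks = D.k) (x : G) (c : B) :
    D.ev S hS x (Al.cst S c) = ze c := Al.lift_cst _ _ _ _ _ c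

theorem GD.ev_e (D : GD i ze act) (S : SC B G) (hS : S.ks = D.k) (x : G) (l : G) :
    D.ev S hS x (Al.e S l) = D.b l x := Al.lift_e _ _ _ _ _ l

theorem GD.ev_act (D : GD i ze act) (S : SC B G) (hS : S.ks = D.k) (x h : G) (a : Al S) :
    D.ev S hS x (Al.act S h a) = D.ev S hS (x * h) a := by
  have h1 : (D.ev S hS x).comp (Al.act S h) = D.ev S hS (x * h) := by
    refine Al.hom_ext S (fun c => ?_) (fun l => ?_)
    · rw [RingHom.comp_apply, Al.act_cst, GD.ev_cst, GD.ev_cst]
    · rw [RingHom.comp_apply, Al.act_e, map_sum, GD.ev_e, D.hact, ← hS]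
      refine Finset.sum_congr rfl fun m _ => ?_
      rw [map_mul, GD.ev_cst, GD.ev_e]
      rfl
  exact RingHom.congr_fun h1 a

theorem GD.ev_P (D : GD i ze act) (hz : ∀ u b, act u (ze b) = ze b) (S : SC B G)
    (hS : S.ks = D.k) (u : P) (x : G) (a : Al S) :
    D.ev S hS (i u * x) a = act u (D.ev S hS x a) := by
  rw [GD.ev_apply, GD.ev_apply, map_sum]
  refine Finset.sum_congr rfl fun l _ => ?_
  rw [map_mul, hz, D.hP]

end

end

end Pool.Agent.MP_1c8e06_ag.AJ
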