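import Pool.Agent.Lib.MP_1c8e06_ag.AJ.Defs5

set_option autoImplicit false

open Polynomial
open scoped Classical

namespace Pool.Agent.MP_1c8e06_ag.AJ

noncomputable section

/-- The valuation ring of `El S`, stable under `P`, with residue field `k`. -/
structure VR {k : Type} [Field k] {P : Type} [Group P] [Fintype P] (S : SC k[X] P) where
  V : Subring (El S)
  val : ∀ x, x ∈ V ∨ ∃ y ∈ V, x * y = 1
  act : ∀ u, ∀ x ∈ V, actE S u x ∈ V
  ps : ∀ f : PowerSeries k, oE S (HahnSeries.ofPowerSeries ℤ k f) ∈ V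
  pole : oE S (HahnSeries.single (-1 : ℤ) (1 : k)) ∉ V
  res : ∀ x ∈ V, ∃ c : k, x - oE S (HahnSeries.C c) ∈ NU V
  arch : ∀ x : El S, ∃ N : ℕ, oE S (HahnSeries.single (N : ℤ) (1 : k)) * x ∈ V

end

end Pool.Agent.MP_1c8e06_ag.AJ
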