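import Pool.Agent.Lib.MP_1c8e06_ag.AJ.Defs6
import Pool.Agent.Lib.MP_1c8e06_ag.BT.S3
import Pool.Agent.Lib.MP_1c8e06_ag.BT.S4

set_option autoImplicit false

open Polynomial
open scoped Classical

namespace Pool.Agent.MP_1c8e06_ag.AJ

noncomputable section

/-- The subgroup generated by the `L`-conjugates of the elements of `S`. -/
def clS {G : Type} [Group G] (S L : Subgroup G) : Subgroup G :=
  Subgroup.closure {y | ∃ a ∈ L, ∃ x ∈ S, y = a * x * a⁻¹}

theorem mem_clS {G : Type} [Group G] {S L : Subgroup G} {a x : G} (ha : a ∈ L) (hx : x ∈ S) :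
    a * x * a⁻¹ ∈ clS S L := Subgroup.subset_closure ⟨a, ha, x, hx, rfl⟩

theorem le_clS {G : Type} [Group G] (S L : Subgroup G) : S ≤ clS S L := by
  intro x hx
  have h := mem_clS L.one_mem hx
  rwa [one_mul, inv_one, mul_one] at h

/-- A class of finite groups closed under subgroups and quotients. -/
structure Cls where
  mem : (G : Type) → [Group G] → Prop
  sub : ∀ (G : Type) [Group G] [Finite G] (H : Subgroup G), mem G → mem H
  quot : ∀ (G : Type) [Group G] [Finite G] (N : Subgroup G) [N.Normal], mem G → mem (G ⧸ N)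

/-- The class of all finite groups. -/
def Cls.all : Cls := ⟨fun _ _ => True, fun _ _ _ _ _ => trivial, fun _ _ _ _ _ _ => trivial⟩

/-- The case of groups `P` of order `p`, for groups `G` in the class `CC`. -/
def Base (p : ℕ) (k : Type) [Field k] (CC : Cls) : Prop :=
  ∀ (P G : Type) [Group P] [Fintype P] [Group G] [Fintype G] (i : P →* G),
    CC.mem G → Nat.card P = p → Function.Injective i →
    Subgroup.normalClosure (i.range : Set G) = ⊤ → RE p k i ⊤

/-- The induction hypothesis: the theorem for all groups `G` in `CC` of order less than `n`. -/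
def Ind (p : ℕ) (k : Type) [Field k] (CC : Cls) (n : ℕ) : Prop :=
  ∀ (P G : Type) [Group P] [Fintype P] [Group G] [Fintype G] (i : P →* G),
    CC.mem G → Nat.card G < n → IsPGroup p P → Function.Injective i →
    Subgroup.normalClosure (i.range : Set G) = ⊤ → RE p k i ⊤

/-- The structure constants of the trivial algebra, for the trivial group. -/
def SC.triv (B : Type) [CommRing B] (P : Type) [Group P] [Fintype P] [Subsingleton P] : SC B P where
  μ _ _ _ := 1
  α _ _ _ := 1
  ν _ := 1
  T _ _ := 1
  T' _ _ := 1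
  comm _ _ _ := rfl
  assoc _ _ _ _ := rfl
  unit j l := by
    rw [Fintype.sum_subsingleton _ (1 : P), if_pos (Subsingleton.elim j l), one_mul]
  α_one l m := by rw [if_pos (Subsingleton.elim l m)]
  α_mul _ _ _ _ := by rw [Fintype.sum_subsingleton _ (1 : P), one_mul]
  α_μ _ _ _ _ := by
    rw [Fintype.sum_subsingleton _ (1 : P), Fintype.sum_subsingleton _ (1 : P),
      Fintype.sum_subsingleton _ (1 : P)]
    ring
  α_ν _ _ := by rw [Fintype.sum_subsingleton _ (1 : P), one_mul]
  tr _ _ _ := by rw [Fintype.sum_subsingleton _ (1 : P), Fintype.sum_subsingleton _ (1 : P)]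
  dual x k := by
    rw [Fintype.sum_subsingleton _ (1 : P), Fintype.sum_subsingleton _ (1 : P),
      Fintype.sum_subsingleton _ (1 : P), if_pos (Subsingleton.elim x 1)]
    ring

end

end Pool.Agent.MP_1c8e06_ag.AJ
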