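import Pool.Agent.Lib.MP_1c8e06_ag.Mg.G066

set_option autoImplicit false

open Polynomial
open scoped Classical

namespace Pool.Agent.MP_1c8e06_ag.AJ

noncomputable section

/-!
# Task X3: the base case for `p = 2` (assembly)

Proof.  `Nat.card P = 2`: `u₀ ≠ 1`, `orderOf u₀ = 2`, every `u` is `u₀ ^ n` (`n = 0, 1`; or `zpowers u₀ = ⊤` by cardinality).
`g := i u₀`, `orderOf g = 2` (`orderOf_injective`).  `i.range ≤ normalClosure {g}`, so it is `⊤`.  `two_WD`, `re_of_WD`.
-/

theorem base_two (k : Type) [Field k] [IsAlgClosed k] [CharP k 2] [Fact (Nat.Prime 2)]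
    (CC : Cls) : Base 2 k CC := by
  intro P G _ _ _ _ i _ hcard hinj hgen
  have hc1 : 1 < Nat.card P := by rw [hcard]; norm_num
  have : Nontrivial P := Finite.one_lt_card_iff_nontrivial.mp hc1
  obtain ⟨u₀, hu₀⟩ := exists_ne (1 : P)
  have hord : orderOf u₀ = 2 := by
    have hdvd : orderOf u₀ ∣ 2 := by
      rw [← hcard]
      exact orderOf_dvd_natCard u₀
    rcases (Nat.dvd_prime Nat.prime_two).mp hdvd with h | h
    · exact absurd (orderOf_eq_one_iff.mp h) hu₀
    · exact h
  have htop : Subgroup.zpowers u₀ = ⊤ := by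
    apply Subgroup.eq_top_of_card_eq
    rw [Nat.card_zpowers, hord, hcard]
  have hpow : ∀ u : P, ∃ n : ℕ, u = u₀ ^ n := by
    intro u
    have hu : u ∈ Subgroup.zpowers u₀ := by rw [htop]; exact Subgroup.mem_top u
    obtain ⟨n, hn⟩ := (mem_powers_iff_mem_zpowers (x := u₀) (y := u)).mpr hu
    exact ⟨n, hn.symm⟩
  have hg : orderOf (i u₀) = 2 := by
    rw [orderOf_injective i hinj, hord]
  have hle : (i.range : Set G) ⊆ Subgroup.normalClosure ({i u₀} : Set G) := by
    rintro _ ⟨u, rfl⟩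
    obtain ⟨n, rfl⟩ := hpow u
    rw [map_pow]
    exact Subgroup.pow_mem _ (Subgroup.subset_normalClosure (Set.mem_singleton _)) n
  have htop' : Subgroup.normalClosure ({i u₀} : Set G) = ⊤ := by
    apply top_le_iff.mp
    rw [← hgen]
    exact Subgroup.normalClosure_le_normal hle
  obtain ⟨F, hF, D, hD⟩ := two_WD k (i u₀) hg htop'
  exact re_of_WD D hF ⊤ hD u₀ hord hpow i rfl

end

end Pool.Agent.MP_1c8e06_ag.AJ
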