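import Pool.Agent.Lib.MP_1c8e06_ag.Mg.G060
import Pool.Agent.Lib.MP_1c8e06_ag.AJ.X3
import Pool.Agent.Lib.MP_1c8e06_ag.Mg.G056

set_option autoImplicit false

open Polynomial
open scoped Classical

namespace Pool.Agent.MP_1c8e06_ag.AJ

noncomputable section

/-!
# The final theorem in characteristic 2
-/

theorem main_class {p : ℕ} [hp : Fact p.Prime] (k : Type) [Field k] [IsAlgClosed k] [CharP k p]
    (CC : Cls) (hbase : Base p k CC) {G : Type} [Group G] [Finite G] (hG : CC.mem G)
    (P : Subgroup G) (hP : IsPGroup p P) (hgen : Subgroup.normalClosure (P : Set G) = ⊤) :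
    AI.Realised k G P := by
  letI : Fintype G := Fintype.ofFinite G
  letI : Fintype P := Fintype.ofFinite P
  have h1 : (P.subtype).range = P := P.range_subtype
  have h2 : RE p k P.subtype ⊤ :=
    main_RE CC hbase P.subtype hG hP P.subtype_injective (by rw [h1]; exact hgen)
  have h3 := realised_of_RE hP P.subtype h2
  rwa [h1] at h3

theorem main_char_two (k : Type) [Field k] [IsAlgClosed k] [CharP k 2] {G : Type} [Group G]
    [Finite G] (P : Subgroup G) (hP : IsPGroup 2 P)
    (hgen : Subgroup.normalClosure (P : Set G) = ⊤) : AI.Realised k G P := by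
  haveI : Fact (Nat.Prime 2) := ⟨Nat.prime_two⟩
  exact main_class k Cls.all (base_two k _) trivial P hP hgen

end

end Pool.Agent.MP_1c8e06_ag.AJ
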