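import Pool.Agent.Lib.MP_1c8e06_ag.AJ.Fin
import Pool.Agent.Lib.MP_1c8e06_ag.Mg.G059

set_option autoImplicit false

open Polynomial
open scoped Classical

namespace Pool.Agent.MP_1c8e06_ag.AJ

noncomputable section

/-!
# Task Gb2: the type itself as a cover; enlarging the inertia group; joins

* `re_self`: `exists_ext` (`AJ/L3.lean`) for the homomorphism from `P` to a group with one element (e.g. `Multiplicative (ZMod 1)`
  or `PUnit`) and `S' := SC.triv`, `TC` trivial (no `χ ≠ 0`): `S : SC k[X] P`, `TC p S`.  `Al.exists_univ S`: data with values in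
  `Al S`; `GD.push` with `φ = id`, `ψ := Al.mapA S (AI.zinv k) : Al S →+* El S`, `j = id` (`Al.mapA_cst`, `Al.mapA_act`): `D` with
  `D.b l x = actE S x (mapA (e l))`.  `Conn' ⊤`: if `∑ zeE (f l) * D.b l x = zeE (C (c x))` for all `x` let
  `a := ∑ zeE (f l) * mapA (e l)`; `a = zeE (C (c 1))`, and `zeE (C (c x)) = actE x a = zeE (C (c 1))` (`actE_zeE`), so
  `c x = c 1` (`zeE_injective`, `C_injective`).
* `re_range`: `re_ind` with `G₀ := P`, `i₀ := MonoidHom.id P`, `φ := i`; `⊤.map i = i.range`.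
* `re_up`: `op_central` with `H₂ := i.range`.
* `re_join`: `op_central` with `I := P`, `j := MonoidHom.id P` (a group of prime order is commutative).
* `realised_up`: `re_up` for `P.subtype` and the corestriction `j : I → P` of `i₀`: `RE p k P.subtype (⊤ ⊔ _) = RE .. ⊤`;
  `realised_of_RE` as in `AJ/Fin.lean`.
-/

theorem re_self {p : ℕ} [hp : Fact p.Prime] {k : Type} [Field k] [IsAlgClosed k] [CharP k p]
    {P : Type} [Group P] [Fintype P] (hP : IsPGroup p P) : RE p k (MonoidHom.id P) ⊤ := by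
  have hsub : Subsingleton (Multiplicative (ZMod 1)) :=
    ⟨fun a b => Subsingleton.elim (α := ZMod 1) a b⟩
  have hq : Function.Surjective (1 : P →* Multiplicative (ZMod 1)) :=
    fun y => ⟨1, Subsingleton.elim _ _⟩
  have hT0 : TC p (SC.triv k[X] (Multiplicative (ZMod 1))) := by
    rintro χ hχ ⟨u, hu⟩
    exfalso
    apply hu
    have h1 := hχ 1 1
    rw [mul_one] at h1
    have h2 : χ 1 = 0 := by
      have h3 : χ 1 + 0 = χ 1 + χ 1 := by rw [add_zero]; exact h1
      exact (add_left_cancel h3).symm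
    rw [Subsingleton.elim u 1, h2]
  obtain ⟨S, hT, -⟩ := exists_ext hP (1 : P →* Multiplicative (ZMod 1)) hq
    (SC.triv k[X] (Multiplicative (ZMod 1))) hT0
  obtain ⟨D₀, -, hb⟩ := Al.exists_univ S
  have hDb : ∀ l x, (D₀.push (RingHom.id k[X]) (Al.mapA S (AI.zinv k)) (MonoidHom.id P)
      (MonoidHom.id P) (fun u => rfl) (zeE S) (actE S) (fun b => Al.mapA_cst S (AI.zinv k) b)
      (fun u a => Al.mapA_act S (AI.zinv k) u a)).b l x =
      actE S x (Al.mapA S (AI.zinv k) (Al.e S l)) := by
    intro l x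
    change Al.mapA S (AI.zinv k) (D₀.b l x) = _
    rw [hb, Al.mapA_act]
    rfl
  refine ⟨S, hT, D₀.push (RingHom.id k[X]) (Al.mapA S (AI.zinv k)) (MonoidHom.id P)
      (MonoidHom.id P) (fun u => rfl) (zeE S) (actE S) (fun b => Al.mapA_cst S (AI.zinv k) b)
      (fun u a => Al.mapA_act S (AI.zinv k) u a), ?_⟩
  intro h _ f c hf
  have h1 : ∀ x, actE S x (∑ l, zeE S (f l) * Al.mapA S (AI.zinv k) (Al.e S l)) =
      zeE S (C (c x)) := by
    intro x
    rw [map_sum, ← hf x]
    refine Finset.sum_congr rfl fun l _ => ?_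
    rw [map_mul, actE_zeE, hDb]
  have h2 := h1 1
  rw [map_one] at h2
  have h3 := h1 h
  rw [show (∑ l, zeE S (f l) * Al.mapA S (AI.zinv k) (Al.e S l)) = zeE S (C (c 1)) from h2,
    actE_zeE] at h3
  exact (C_injective (zeE_injective S h3)).symm

theorem re_range {p : ℕ} [hp : Fact p.Prime] {k : Type} [Field k] [IsAlgClosed k] [CharP k p]
    {P G : Type} [Group P] [Fintype P] [Group G] [Fintype G] (hP : IsPGroup p P) (i : P →* G)
    (hi : Function.Injective i) : RE p k i i.range := by
  have h := re_ind (MonoidHom.id P) i hi ⊤ (re_self (k := k) hP)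
  rwa [MonoidHom.comp_id, ← MonoidHom.range_eq_map] at h

theorem re_up {p : ℕ} [hp : Fact p.Prime] {k : Type} [Field k] [IsAlgClosed k] [CharP k p]
    {P I G : Type} [Group P] [Fintype P] [Group I] [Fintype I] [Group G] [Fintype G]
    (hP : IsPGroup p P) (i : P →* G) (hi : Function.Injective i) (j : I →* P)
    (hj : Function.Injective j) (hI : Nat.card I = p) (hc : ∀ (u : I) (v : P), v * j u = j u * v)
    (H : Subgroup G) (h : RE p k (i.comp j) H) : RE p k i (H ⊔ i.range) :=
  op_central i hi j hj hI hc H i.range h (re_range hP i hi)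

theorem re_join {p : ℕ} [hp : Fact p.Prime] {k : Type} [Field k] [IsAlgClosed k] [CharP k p]
    {P G : Type} [Group P] [Fintype P] [Group G] [Fintype G] (i : P →* G)
    (hi : Function.Injective i) (hcard : Nat.card P = p) (H₁ H₂ : Subgroup G)
    (h1 : RE p k i H₁) (h2 : RE p k i H₂) : RE p k i (H₁ ⊔ H₂) := by
  have hcyc : IsCyclic P := isCyclic_of_prime_card hcard
  obtain ⟨g, hg⟩ := hcyc.exists_generator
  have hc : ∀ u v : P, v * u = u * v := by
    intro u v
    obtain ⟨a, rfl⟩ := Subgroup.mem_zpowers_iff.1 (hg u)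
    obtain ⟨b, rfl⟩ := Subgroup.mem_zpowers_iff.1 (hg v)
    rw [← zpow_add, ← zpow_add, add_comm]
  exact op_central i hi (MonoidHom.id P) Function.injective_id hcard (fun u v => hc u v) H₁ H₂
    (by rw [MonoidHom.comp_id]; exact h1) h2

theorem realised_up {p : ℕ} [hp : Fact p.Prime] {k : Type} [Field k] [IsAlgClosed k] [CharP k p]
    {I G : Type} [Group I] [Fintype I] [Group G] [Fintype G] (i₀ : I →* G)
    (hi₀ : Function.Injective i₀) (hI : Nat.card I = p) (P : Subgroup G) (hP : IsPGroup p P)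
    (hle : ∀ u, i₀ u ∈ P) (hc : ∀ u, ∀ v ∈ P, v * i₀ u = i₀ u * v) (h : RE p k i₀ ⊤) :
    AI.Realised k G P := by
  let _ : Fintype P := Fintype.ofFinite P
  obtain ⟨j, hj⟩ : ∃ j : I →* P, P.subtype.comp j = i₀ :=
    ⟨i₀.codRestrict P hle, MonoidHom.ext fun u => rfl⟩
  have hja : ∀ u, ((j u : P) : G) = i₀ u := fun u => by rw [← hj]; rfl
  have hjinj : Function.Injective j := by
    intro a b hab
    apply hi₀
    rw [← hja, ← hja, hab]
  have h1 := re_up hP P.subtype P.subtype_injective j hjinj hI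
    (fun u v => Subtype.ext (by
      change (v : G) * (j u : P) = (j u : P) * (v : G)
      rw [hja]
      exact hc u v v.2)) ⊤ (by rw [hj]; exact h)
  rw [top_sup_eq] at h1
  have h3 := realised_of_RE hP P.subtype h1
  rwa [P.range_subtype] at h3

end

end Pool.Agent.MP_1c8e06_ag.AJ
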